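import Mathlib
import Pool.Agent.H913.SGP.Definitions

/-! Further definitions on Harish-Chandra modules and their continuous norms, used in the statements
for MP_c67f28_al, MP_d7c545_al, MP_a304db_al and MP_6a3a89_al. The basic ones (real reductive groups,
Harish-Chandra modules, weights, `Norm(V,w)`, Sobolev operators, Sobolev gap) are in
`Pool.Agent.H913.SGP.Definitions`. -/

open Matrix NormedSpace
open scoped Matrix

namespace Pool.Agent.H913.LGP

open Pool.Agent.H913.SGP

section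

variable {n : ℕ} {G : Type} [Group G] [TopologicalSpace G] {GR : Subgroup (GL (Fin n) ℝ)}
  {ρ : G →* GL (Fin n) ℝ} {V : Type} [AddCommGroup V] [Module ℂ V]

/-- `j` identifies `V` with a `(𝔤, K)`-submodule of `U`. -/
def IsEmbedding {U : Type} [AddCommGroup U] [Module ℂ U] (MV : HCModule GR ρ V)
    (MU : HCModule GR ρ U) (j : V →ₗ[ℂ] U) : Prop :=
  Function.Injective j ∧ (∀ X v, j (MV.a X v) = MU.a X (j v)) ∧ ∀ k v, j (MV.κ k v) = MU.κ k (j v)

/-- `Norm(V, w)` has a smallest and a largest class (in particular it is not empty). -/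
def HasMinMax (Mo : HCModule GR ρ V) (w : G → ℝ) : Prop :=
  (∃ p, IsMinNorm Mo w p) ∧ ∃ p, IsMaxNorm Mo w p

/-- the norm `(tr XᵀX)^(1/2)` -/
noncomputable def frob (X : Mat n) : ℝ := Real.sqrt (∑ i, ∑ j, X i j ^ 2)

/-- `‖Ad(g)‖`: the operator norm on `𝔤` for the inner product `tr XᵀY`, which is `Ad(K)`-invariant. -/
noncomputable def adNorm (GR : Subgroup (GL (Fin n) ℝ)) (ρ : G →* GL (Fin n) ℝ) (g : G) : ℝ :=
  sSup {r | ∃ X : LieAlg GR, frob X.1 ≤ 1 ∧ r = frob (conj (ρ g) X.1)}

/-- the weight `w_t(g) = w(g) ‖Ad(g)‖^t` -/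
noncomputable def twist (GR : Subgroup (GL (Fin n) ℝ)) (ρ : G →* GL (Fin n) ℝ) (w : G → ℝ) (t : ℝ)
    (g : G) : ℝ := w g * adNorm GR ρ g ^ t

/-- the set of all `s ≥ 0` with `p ≲ q_s` -/
def dSet (Mo : HCModule GR ρ V) {m : ℕ} (b : Fin m → LieAlg GR) (p q : V → ℝ) : Set ℝ :=
  {s | 0 ≤ s ∧ ∃ T : Module.End ℂ V, IsSobolevPow Mo b s T ∧ NormLE p fun v => q (T v)}

/-- the pseudometric `d([p],[q])` -/
noncomputable def sdist (Mo : HCModule GR ρ V) {m : ℕ} (b : Fin m → LieAlg GR) (p q : V → ℝ) : ℝ :=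
  max (sInf (dSet Mo b p q)) (sInf (dSet Mo b q p))

/-- `π` is a continuous representation of `G` on `E` by bounded operators, and `ι` embeds `V` in `E` as
a dense subspace of (`K`-finite) differentiable vectors on which the induced `(𝔤, K)`-action is the given
one. -/
structure IsCompletion (Mo : HCModule GR ρ V) {E : Type} [NormedAddCommGroup E] [NormedSpace ℂ E]
    (ι : V →ₗ[ℂ] E) (π : G →* (E →L[ℂ] E)) : Prop where
  injective : Function.Injective ι
  dense : DenseRange ι
  continuous : ∀ x, Continuous fun g => π g x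
  intertwines_K : ∀ (k : maxCompact ρ) (v : V), π k.1 (ι v) = ι (Mo.κ k v)
  intertwines_lie : ∀ (X : LieAlg GR) (γ : ℝ → G), IsOneParam ρ X.1 γ → ∀ v : V,
    HasDerivAt (fun t : ℝ => π (γ t) (ι v)) (ι (Mo.a X v)) 0

/-- `p` is a `G`-continuous norm: the completion `E` of `V` for `p` carries a continuous
representation `π` of `G` by bounded operators such that the vectors of `V` are (`K`-finite and)
differentiable and the induced `(𝔤, K)`-action on `V` is the given one. -/
def IsGContinuous (Mo : HCModule GR ρ V) (p : V → ℝ) : Prop :=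
  ∃ (E : Type) (_ : NormedAddCommGroup E) (_ : NormedSpace ℂ E) (_ : CompleteSpace E)
    (ι : V →ₗ[ℂ] E) (π : G →* (E →L[ℂ] E)), IsCompletion Mo ι π ∧ ∀ v, p v = ‖ι v‖

end

end Pool.Agent.H913.LGP
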